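import Mathlib
import Pool.Agent.Q163.NL.Conv
import Pool.Agent.Q163.NL.Nil

set_option autoImplicit false

/-!
# Short-interval disjointness with the supremum inside for random modifications: exact thresholds

Let `P` be a set of primes and `x` the random completely multiplicative function with independent fair
signs at the primes of `P` and the value `1` at the other primes; `f` is any fixed function with values
in the unit disc, for example the Moebius function, and `F = f x`. A set `V` of sequences is thin if it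
has at most `exp (o(L))` patterns of length `L` up to any error; examples are the polynomial phases of
bounded degree, the orbits of a system of zero topological entropy, and all the sequences
`Φ(g^n y)`, where `g` and `y` run through all real unipotent matrices and `Φ` is a continuous function on
the nilmanifold `U_d(ℝ)/U_d(ℤ)`.

* The estimate of Q1 for `F` and `V`, uniformly in `H₀ ≤ H ≤ N`, holds almost surely for all thin sets
  `V` at once, for every `f`, if and only if the sum of `1/p` over `p ∈ P`, `log log N < p ≤ N`, tends to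
  infinity.
* The estimate with `N → ∞` before `H → ∞` has the exact threshold `log log log N`.
* Below the thresholds one function `f` with values `-1, 0, 1` is bad for every choice of the signs,
  already for the constant sequence.
-/

namespace Pool.Agent.Results.MP_663568_nt.ExactThresholds

open Finset Filter Topology MeasureTheory ProbabilityTheory
open Pool.Agent.Q163.RX (cm)

open Classical in
/-- the sum of `1/p` over the primes `p ∈ P` with `⌊t⌋ < p ≤ N` -/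
noncomputable def mass (P : Set ℕ) (t : ℝ) (N : ℕ) : ℝ :=
  ∑ p ∈ (Ioc ⌊t⌋₊ N).filter (fun p => p.Prime ∧ p ∈ P), (1 : ℝ) / p

/-- the threshold `log log N` -/
def ThickLL (P : Set ℕ) : Prop :=
  Tendsto (fun N : ℕ => mass P (Real.log (Real.log N)) N) atTop atTop

/-- the threshold `log log log N` -/
def ThickLLL (P : Set ℕ) : Prop :=
  Tendsto (fun N : ℕ => mass P (Real.log (Real.log (Real.log N))) N) atTop atTop

open Classical in
/-- the random function: completely multiplicative with the value `1` or `-1` at the primes `p ∈ P`,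
according to `ω p`, and the value `1` at the other primes -/
noncomputable def rand (P : Set ℕ) (ω : ℕ → Bool) (n : ℕ) : ℝ :=
  ∏ p ∈ n.primeFactors, (if p ∈ P then (if ω p = true then 1 else -1) else 1) ^ n.factorization p

/-- Thin sets of sequences: at most `exp (δ L)` patterns of length `L`, with values in the unit disc, up
to the error `δ`. -/
def Thin (V : Set (ℕ → ℂ)) : Prop := ∀ δ : ℝ, 0 < δ → ∀ᶠ L : ℕ in atTop, ∃ U : Finset (ℕ → ℂ),
  (U.card : ℝ) ≤ Real.exp (δ * L) ∧ (∀ u ∈ U, ∀ h, ‖u h‖ ≤ 1) ∧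
    ∀ v ∈ V, ∀ m, ∃ u ∈ U, ∀ h < L, ‖v (m + h) - u h‖ ≤ δ

/-- The estimate of Q1 for the function `F` and the sequences of `V`: the sum over `n ≤ N` of `1/n` times
the supremum over `v ∈ V` and the offsets `o` of `|∑ h ≤ H, v(o + h) F(n + h)|` is at most `ε H log N` for
`H₀ ≤ H ≤ N`. (The nearly extremal `v` and `o` are chosen for each `n`.) -/
def Estimate (F : ℕ → ℂ) (V : Set (ℕ → ℂ)) : Prop := ∀ ε : ℝ, 0 < ε → ∃ H₀ : ℕ, ∀ N H : ℕ, H₀ ≤ H →
  H ≤ N → ∀ (v : ℕ → ℕ → ℂ) (o : ℕ → ℕ), (∀ n, v n ∈ V) →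
    ∑ n ∈ Icc 1 N, 1 / (n : ℝ) * ‖∑ h ∈ Icc 1 H, v n (o n + h) * F (n + h)‖ ≤ ε * (H * Real.log N)

/-- The same for `N → ∞` before `H → ∞`: for `H ≥ H₀` and `N ≥ N₀(H)`. -/
def IteratedEstimate (F : ℕ → ℂ) (V : Set (ℕ → ℂ)) : Prop := ∀ ε : ℝ, 0 < ε → ∃ H₀ : ℕ,
  ∀ H : ℕ, H₀ ≤ H → ∀ᶠ N : ℕ in atTop, ∀ (v : ℕ → ℕ → ℂ) (o : ℕ → ℕ), (∀ n, v n ∈ V) →
    ∑ n ∈ Icc 1 N, 1 / (n : ℝ) * ‖∑ h ∈ Icc 1 H, v n (o n + h) * F (n + h)‖ ≤ ε * (H * Real.log N)

/-- the sequences `exp (2 π i Q(n))`, `Q` a real polynomial of degree at most `D` -/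
noncomputable def PolyPhases (D : ℕ) : Set (ℕ → ℂ) :=
  {v | ∃ Q : Polynomial ℝ, Q.natDegree ≤ D ∧
    v = fun n : ℕ => Complex.exp ((2 * Real.pi * Q.eval (n : ℝ) : ℝ) * Complex.I)}

/-- upper triangular real matrices with ones on the diagonal -/
def Unip {d : ℕ} (A : Matrix (Fin d) (Fin d) ℝ) : Prop :=
  ∀ i j, j ≤ i → A i j = if i = j then 1 else 0

/-- those with integral entries -/
def UnipInt {d : ℕ} (A : Matrix (Fin d) (Fin d) ℝ) : Prop := Unip A ∧ ∀ i j, ∃ z : ℤ, A i j = z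

/-- continuous functions with values in the unit disc on the nilmanifold of the cosets `A U_d(ℤ)` of the
group `U_d(ℝ)` of the real unipotent matrices `A` -/
structure NilFun (d : ℕ) (Φ : Matrix (Fin d) (Fin d) ℝ → ℂ) : Prop where
  cont : ContinuousOn Φ {A | Unip A}
  inv : ∀ A γ, Unip A → UnipInt γ → Φ (A * γ) = Φ A
  norm : ∀ A, Unip A → ‖Φ A‖ ≤ 1

/-- the sequences `Φ(g^n y)` for all unipotent `g` and `y` -/
def NilSeq (d : ℕ) (Φ : Matrix (Fin d) (Fin d) ℝ → ℂ) : Set (ℕ → ℂ) :=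
  {v | ∃ g y, Unip g ∧ Unip y ∧ v = fun n => Φ (g ^ n * y)}

/-- zero topological entropy, with spanning sets -/
def ZeroEntropy {X : Type} [MetricSpace X] (T : X → X) : Prop :=
  ∀ ε δ : ℝ, 0 < ε → 0 < δ → ∀ᶠ L : ℕ in atTop, ∃ S : Finset X, (S.card : ℝ) ≤ Real.exp (δ * L) ∧
    ∀ y, ∃ s ∈ S, ∀ h < L, dist (T^[h] y) (T^[h] s) < ε

lemma llEq (P : Set ℕ) : ThickLL P ↔ Tendsto (Pool.Agent.Q163.RX.mass P Pool.Agent.Q163.RX.ll)
    atTop atTop := Iff.rfl

lemma lllEq (P : Set ℕ) : ThickLLL P ↔ Tendsto (Pool.Agent.Q163.RX.mass P Pool.Agent.Q163.LX.lll)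
    atTop atTop := Iff.rfl

lemma rand_eq (P : Set ℕ) (ω : ℕ → Bool) : rand P ω =
    Pool.Agent.Q163.RP.mult (Pool.Agent.Q163.RP.sg P Pool.Agent.Q163.RX.es ω) := rfl

lemma est_of {F : ℕ → ℂ} {V : Set (ℕ → ℂ)} (h : Pool.Agent.Q163.NL.Disj F V) : Estimate F V := h

lemma not_est {F : ℕ → ℂ} {V : Set (ℕ → ℂ)} (h : ¬ Pool.Agent.Q163.NL.Disj F V) :
    ¬ Estimate F V := h

lemma not_iter {F : ℕ → ℂ} {V : Set (ℕ → ℂ)} (h : ¬ Pool.Agent.Q163.NL.DisjIter F V) :
    ¬ IteratedEstimate F V := h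

lemma real_sum (g x : ℕ → ℝ) (N : ℕ) :
    ‖∑ n ∈ Icc 1 N, (g n : ℂ) * (x n : ℂ)‖ = |∑ n ∈ Icc 1 N, g n * x n| := by
  rw [← Real.norm_eq_abs, ← Complex.norm_real]
  push_cast
  rfl

lemma real_sum_div (g x : ℕ → ℝ) (N : ℕ) :
    ‖∑ n ∈ Icc 1 N, (g n : ℂ) * (x n : ℂ) / (n : ℂ)‖ = |∑ n ∈ Icc 1 N, g n * x n / n| := by
  rw [← Real.norm_eq_abs, ← Complex.norm_real]
  push_cast
  rfl

lemma norm_rand (P : Set ℕ) (ω : ℕ → Bool) (n : ℕ) : ‖((rand P ω n : ℝ) : ℂ)‖ = 1 := by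
  rw [Complex.norm_real, Real.norm_eq_abs]
  rcases Pool.Agent.Q163.NL.rnd_sign P ω n with h | h
  · have h1 : rand P ω n = 1 := h
    rw [h1, abs_one]
  · have h1 : rand P ω n = -1 := h
    rw [h1, abs_neg, abs_one]

lemma norm_g {g : ℕ → ℝ} (hg : ∀ n, g n = 0 ∨ g n = 1 ∨ g n = -1) (n : ℕ) : ‖(g n : ℂ)‖ ≤ 1 := by
  rw [Complex.norm_real, Real.norm_eq_abs]
  rcases hg n with h2 | h2 | h2 <;> rw [h2] <;> simp

/-- **The exact thresholds.** -/
theorem result :
    (∀ P : Set ℕ,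
      -- (1) the estimate of Q1
      (ThickLL P ↔ ∀ f : ℕ → ℂ, (∀ n, ‖f n‖ ≤ 1) → ∀ᵐ ω ∂cm, ∀ V : Set (ℕ → ℂ), Thin V →
        Estimate (fun n => f n * rand P ω n) V) ∧
      (¬ ThickLL P → ∃ f : ℕ → ℝ, (∀ n, f n = 0 ∨ f n = 1 ∨ f n = -1) ∧ ∀ ω : ℕ → Bool,
        ¬ Estimate (fun n => f n * rand P ω n) {fun _ => 1}) ∧
      -- (2) the estimate with iterated limits
      (ThickLLL P ↔ ∀ f : ℕ → ℂ, (∀ n, ‖f n‖ ≤ 1) → ∀ᵐ ω ∂cm, ∀ V : Set (ℕ → ℂ), Thin V →
        IteratedEstimate (fun n => f n * rand P ω n) V) ∧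
      (¬ ThickLLL P → ∃ f : ℕ → ℝ, (∀ n, f n = 0 ∨ f n = 1 ∨ f n = -1) ∧ ∀ ω : ℕ → Bool,
        ¬ IteratedEstimate (fun n => f n * rand P ω n) {fun _ => 1})) ∧
    -- (3) thin sets
    (∀ D : ℕ, Thin (PolyPhases D)) ∧
    (∀ (d : ℕ) (Φ : Matrix (Fin d) (Fin d) ℝ → ℂ), NilFun d Φ → Thin (NilSeq d Φ)) ∧
    (∀ (X : Type) [MetricSpace X] [CompactSpace X] (T : X → X), ZeroEntropy T →
      ∀ φ : X → ℂ, Continuous φ → (∀ y, ‖φ y‖ ≤ 1) → Thin {v | ∃ y, v = fun n => φ (T^[n] y)}) := by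
  have hone : Thin {fun _ => (1 : ℂ)} := by
    intro δ hδ
    refine Eventually.of_forall fun L => ⟨{fun _ => 1}, ?_, ?_, ?_⟩
    · rw [card_singleton, Nat.cast_one]
      exact Real.one_le_exp (by positivity)
    · intro u hu h
      rw [mem_singleton] at hu
      rw [hu]
      simp
    · rintro v rfl m
      refine ⟨fun _ => 1, mem_singleton_self _, fun h _ => ?_⟩
      rw [sub_self, norm_zero]
      exact hδ.le
  refine ⟨fun P => ?_, ?_, ?_, ?_⟩
  · have key1 : ¬ ThickLL P → ∃ f : ℕ → ℝ, (∀ n, f n = 0 ∨ f n = 1 ∨ f n = -1) ∧ ∀ ω : ℕ → Bool,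
        ¬ Estimate (fun n => f n * rand P ω n) {fun _ => 1} := by
      intro hP
      obtain ⟨g, hg, c, hc, h1⟩ := Pool.Agent.Q163.RX.nec P (fun h => hP ((llEq P).2 h))
      refine ⟨g, hg, fun ω => not_est (Pool.Agent.Q163.NL.not_disj (fun n => ?_) hc ?_)⟩
      · rw [norm_mul, norm_rand, mul_one]
        exact norm_g hg n
      · refine (h1 ω).mono fun N h2 => ?_
        rw [← rand_eq] at h2
        rw [real_sum g (rand P ω) N]
        exact h2
    have key2 : ¬ ThickLLL P → ∃ f : ℕ → ℝ, (∀ n, f n = 0 ∨ f n = 1 ∨ f n = -1) ∧ ∀ ω : ℕ → Bool,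
        ¬ IteratedEstimate (fun n => f n * rand P ω n) {fun _ => 1} := by
      intro hP
      obtain ⟨g, hg, c, hc, h1⟩ := Pool.Agent.Q163.LX.nec P (fun h => hP ((lllEq P).2 h))
      refine ⟨g, hg, fun ω => not_iter (Pool.Agent.Q163.NL.not_disjIter (fun n => ?_) hc ?_)⟩
      · rw [norm_mul, norm_rand, mul_one]
        exact norm_g hg n
      · refine (h1 ω).mono fun N h2 => ?_
        rw [← rand_eq] at h2
        rw [real_sum_div g (rand P ω) N]
        exact h2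
    have hne : ∀ p : (ℕ → Bool) → Prop, (∀ᵐ ω ∂cm, p ω) → ∃ ω, p ω := fun p h => h.exists
    refine ⟨⟨fun hP f hf => ?_, fun h => ?_⟩, key1, ⟨fun hP f hf => ?_, fun h => ?_⟩, key2⟩
    · exact Pool.Agent.Q163.NL.suff_nat P ((llEq P).1 hP) f hf
    · by_contra hP
      obtain ⟨g, hg, h1⟩ := key1 hP
      obtain ⟨ω, hω⟩ := hne _ (h (fun n => (g n : ℂ)) (norm_g hg))
      exact h1 ω (hω _ hone)
    · exact Pool.Agent.Q163.NL.suff_log P ((lllEq P).1 hP) f hf
    · by_contra hP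
      obtain ⟨g, hg, h1⟩ := key2 hP
      obtain ⟨ω, hω⟩ := hne _ (h (fun n => (g n : ℂ)) (norm_g hg))
      exact h1 ω (hω _ hone)
  · intro D
    exact Pool.Agent.Q163.ND.poly_thin D
  · intro d Φ hΦ
    exact Pool.Agent.Q163.NL.nil_thin ⟨hΦ.cont, hΦ.inv, hΦ.norm⟩
  · classical
    intro X _ _ T hT φ hφ hφ1 δ hδ
    have huc := CompactSpace.uniformContinuous_of_continuous hφ
    obtain ⟨ε, hε, h1⟩ := Metric.uniformContinuous_iff.1 huc δ hδ
    filter_upwards [hT ε δ hε hδ] with L hL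
    obtain ⟨S, hS1, hS2⟩ := hL
    refine ⟨S.image fun s n => φ (T^[n] s), ?_, ?_, ?_⟩
    · refine le_trans ?_ hS1
      exact_mod_cast card_image_le
    · intro u hu h
      obtain ⟨s, -, rfl⟩ := mem_image.1 hu
      exact hφ1 _
    · rintro v ⟨y, rfl⟩ m
      obtain ⟨s, hs, h2⟩ := hS2 (T^[m] y)
      refine ⟨fun n => φ (T^[n] s), mem_image.2 ⟨s, hs, rfl⟩, fun h hh => ?_⟩
      have h3 := h1 (h2 h hh)
      rw [← Function.iterate_add_apply, add_comm h m, dist_eq_norm] at h3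
      exact h3.le

end Pool.Agent.Results.MP_663568_nt.ExactThresholds
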