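import Pool.Agent.Q259.FQ.F2

set_option autoImplicit false

/-!
# Polynomials whose leading coefficients lie in a closed set of irrationals

For every degree `k` there are `D, κ > 0` such that for every multiplicative `f` with `|f| ≤ 1` and
every closed set `E` of the circle without rational points the local correlations of `f` with real
polynomials of degree at most `k` and `k`-th coefficient in `E` (the supremum over the polynomials
inside the logarithmic average) are at most `D |E| ^ κ + o(1)`, where `|E|` is the measure of `E`;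
in particular `o(1)` when `E` is a null set. The leading coefficients of large correlations have
bounded density. All windows of length `H` with `H₀ ≤ H` and `H ^ A ≤ X` are allowed.
-/

namespace Pool.Agent.Results.MP_663568_nt.LeadingCoefficients

open Finset MeasureTheory Polynomial

open Classical in
theorem result (k : ℕ) (hk : 1 ≤ k) : ∃ (D κ : ℝ) (M : ℕ), 0 < D ∧ 0 < κ ∧
    ∀ f : ℕ → ℂ, (∀ n, ‖f n‖ ≤ 1) → (∀ a b : ℕ, a.Coprime b → f (a * b) = f a * f b) →
    ∀ E : Set UnitAddCircle, IsClosed E → (∀ x ∈ E, ¬ IsOfFinAddOrder x) →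
    -- averages; the polynomial may depend on `n`
    (∀ ε : ℝ, 0 < ε → ∃ H₀ A : ℕ, ∀ H X : ℕ, H₀ ≤ H → H ^ A ≤ X →
      ∀ P : ℕ → ℝ[X], (∀ n, (P n).natDegree ≤ k ∧ (((P n).coeff k : ℝ) : UnitAddCircle) ∈ E) →
      ∑ n ∈ Icc 1 X, (1 : ℝ) / n * (1 / H * ‖∑ h ∈ range H, f (n + h) *
        Complex.exp (2 * Real.pi * ((P n).eval (h : ℝ) : ℝ) * Complex.I)‖) ≤
        (D * (volume E).toReal ^ κ + ε) * Real.log X) ∧
    -- distribution of the leading coefficients
    (∀ c : ℝ, 0 < c → c ≤ 1 → ∀ ε : ℝ, 0 < ε → ∃ H₀ A : ℕ, ∀ H X : ℕ, H₀ ≤ H → H ^ A ≤ X →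
      ∑ n ∈ (Icc 1 X).filter (fun n => ∃ P : ℝ[X], P.natDegree ≤ k ∧
        ((P.coeff k : ℝ) : UnitAddCircle) ∈ E ∧ c * H ≤ ‖∑ h ∈ range H, f (n + h) *
          Complex.exp (2 * Real.pi * (P.eval (h : ℝ) : ℝ) * Complex.I)‖), (1 : ℝ) / n ≤
        (D / c ^ M * (volume E).toReal + ε) * Real.log X) := by
  obtain ⟨D1, M, hD1, h1⟩ := Pool.Agent.Q259.FQ.dist' k hk
  obtain ⟨D2, κ, hD2, hκ, h2⟩ := Pool.Agent.Q259.FQ.aver' k hk
  refine ⟨max D1 D2, κ, M, lt_max_of_lt_left hD1, hκ, fun f hf hm E hE hT => ⟨?_, ?_⟩⟩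
  · intro ε hε
    obtain ⟨H0, A, h⟩ := h2 f hf hm E hE hT ε hε
    refine ⟨H0, A, fun H X hH hX P hP => (h H X hH hX P hP).trans ?_⟩
    refine mul_le_mul_of_nonneg_right ?_ (Real.log_natCast_nonneg X)
    have h3 : (0 : ℝ) ≤ (volume E).toReal ^ κ := Real.rpow_nonneg ENNReal.toReal_nonneg _
    exact add_le_add (mul_le_mul_of_nonneg_right (le_max_right _ _) h3) le_rfl
  · intro c hc hc1 ε hε
    obtain ⟨H0, A, h⟩ := h1 f hf hm E hE hT c hc hc1 ε hε
    refine ⟨H0, A, fun H X hH hX => (h H X hH hX).trans ?_⟩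
    refine mul_le_mul_of_nonneg_right ?_ (Real.log_natCast_nonneg X)
    refine add_le_add (mul_le_mul_of_nonneg_right ?_ ENNReal.toReal_nonneg) le_rfl
    exact div_le_div_of_nonneg_right (le_max_left _ _) (by positivity)

end Pool.Agent.Results.MP_663568_nt.LeadingCoefficients
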