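import Pool.Agent.Q259.LU.Seq
import Pool.Agent.Q259.LU.Cos

/-! Short-interval sums of the Moebius function against functions of polynomial phases of every degree, with
the supremum over all polynomials inside the average. -/

set_option autoImplicit false

open Finset MeasureTheory Polynomial Filter Topology

namespace Pool.Agent.Results.MP_663568_nt.PolynomialPhases

/-- The forward differences `Δ^k φ(n)` of a real sequence: `Δ^0 φ = φ` and
`Δ^(k+1) φ(n) = Δ^k φ(n+1) - Δ^k φ(n)`. -/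
def diff (φ : ℕ → ℝ) : ℕ → ℕ → ℝ
  | 0, n => φ n
  | k + 1, n => diff φ k (n + 1) - diff φ k n

/-- The supremum of `|∑_{h ≤ H} f(φ(h)) a(n + h)|` over all real sequences `φ` all of whose differences of
order `k + 1` are at most `δ` in absolute value. For `δ ≥ 0` these `φ` include all real polynomials of degree at
most `k`. -/
noncomputable def phaseSup (k : ℕ) (δ : ℝ) (f : C(UnitAddCircle, ℂ)) (a : ℕ → ℤ) (n H : ℕ) : ℝ :=
  ⨆ φ : {φ : ℕ → ℝ // ∀ m, |diff φ (k + 1) m| ≤ δ},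
    ‖∑ h ∈ Icc 1 H, f ((φ.1 h : ℝ) : UnitAddCircle) * ((a (n + h) : ℤ) : ℂ)‖

/-- The Liouville function. -/
def liouville (n : ℕ) : ℤ := (-1) ^ ArithmeticFunction.cardFactors n

/-- `κ` bounds the means over the circle of `|Re (ω (f - c))|`, for all unit complex numbers `ω`. -/
def MeanBound (f : C(UnitAddCircle, ℂ)) (c : ℂ) (κ : ℝ) : Prop :=
  ∀ ω : ℂ, ‖ω‖ = 1 → ∫ t : UnitAddCircle, |(ω * (f t - c)).re| ≤ κ

lemma diff_eq (φ : ℕ → ℝ) (k : ℕ) : ∀ n, diff φ k n = Pool.Agent.Q259.LU.dd φ k n := by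
  induction k with
  | zero => intro n; rfl
  | succ k ih => intro n; rw [diff, Pool.Agent.Q259.LU.dd, ih, ih]

lemma phase_eq (k : ℕ) (δ : ℝ) (f : C(UnitAddCircle, ℂ)) (a : ℕ → ℤ) (n H : ℕ) :
    phaseSup k δ f a n H = Pool.Agent.Q259.LU.difSup k δ f (fun n => ((a n : ℤ) : ℝ)) n H := by
  have e : diff = Pool.Agent.Q259.LU.dd := by
    funext φ k n
    exact diff_eq φ k n
  unfold phaseSup Pool.Agent.Q259.LU.difSup
  rw [e]
  simp only [Complex.ofReal_intCast]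

lemma nonneg_of_mean {f : C(UnitAddCircle, ℂ)} {c : ℂ} {κ : ℝ} (h : MeanBound f c κ) : 0 ≤ κ :=
  (integral_nonneg fun _ => abs_nonneg _).trans (h 1 norm_one)

lemma SA_mu : Pool.Agent.Q259.LU.SA (fun n => ((ArithmeticFunction.moebius n : ℤ) : ℝ)) := by
  refine Pool.Agent.Q259.LU.SA_of _ (fun n => ?_) fun C hC => ?_
  · have := ArithmeticFunction.abs_moebius_le_one (n := n)
    exact_mod_cast this
  · have := Pool.Agent.TH327.Dim.good_mob hC (le_refl (0 : ℝ)) (by norm_num : (0 : ℝ) < 1 / 2)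
    have e : (fun n : ℕ => ((((ArithmeticFunction.moebius n : ℤ) : ℝ)) : ℂ)) = Pool.Agent.TH327.Dim.muf := by
      funext n
      simp [Pool.Agent.TH327.Dim.muf]
    rw [e]
    exact this

lemma SA_la : Pool.Agent.Q259.LU.SA (fun n => ((liouville n : ℤ) : ℝ)) := by
  refine Pool.Agent.Q259.LU.SA_of _ (fun n => ?_) fun C hC => ?_
  · unfold liouville
    push_cast
    rw [abs_pow, abs_neg, abs_one, one_pow]
  · have := Pool.Agent.TH327.Dim.good_lam hC (le_refl (0 : ℝ)) (by norm_num : (0 : ℝ) < 1 / 2)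
    have e : (fun n : ℕ => ((((liouville n : ℤ) : ℝ)) : ℂ)) = Pool.Agent.TH327.Dim.laf := by
      funext n
      simp [Pool.Agent.TH327.Dim.laf, liouville]
    rw [e]
    exact this

lemma mu_main (k : ℕ) (f : C(UnitAddCircle, ℂ)) (c : ℂ) (κ : ℝ) (hf : MeanBound f c κ) (ε : ℝ) (hε : 0 < ε) :
    ∃ δ : ℝ, 0 < δ ∧ ∃ H₀ : ℕ, ∀ N H : ℕ, H₀ ≤ H → H ≤ N →
      ∑ n ∈ Icc 1 N, (1 / (n : ℝ)) * phaseSup k δ f ArithmeticFunction.moebius n H ≤
        (6 / Real.pi ^ 2 * κ + ε) * H * Real.log N ∧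
      ∑ n ∈ Icc 1 N, phaseSup k δ f ArithmeticFunction.moebius n H ≤ (6 / Real.pi ^ 2 * κ + ε) * H * N := by
  have hκ := nonneg_of_mean hf
  obtain ⟨P, hP⟩ := Pool.Agent.Q259.LU.wP_mean (ε / (2 * (κ + 1))) (by positivity)
  obtain ⟨δ, hδ, H₀, h⟩ := Pool.Agent.Q259.LU.main k f c κ hκ hf
    (fun n => ((ArithmeticFunction.moebius n : ℤ) : ℝ)) SA_mu (P.factorial ^ 2)
    (Nat.one_le_pow _ _ (Nat.factorial_pos P)) (Pool.Agent.Q259.LU.wP P) (Pool.Agent.Q259.LU.mu_le_wP P)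
    (Pool.Agent.Q259.LU.wP_le P) (Pool.Agent.Q259.LU.wP_per P) _ hP (ε / 2) (by positivity)
  have hle : (6 / Real.pi ^ 2 + ε / (2 * (κ + 1))) * κ + ε / 2 ≤ 6 / Real.pi ^ 2 * κ + ε := by
    have : ε / (2 * (κ + 1)) * κ ≤ ε / 2 := by
      rw [div_mul_eq_mul_div, div_le_div_iff₀ (by positivity) (by norm_num)]
      nlinarith
    linarith
  refine ⟨δ, hδ, H₀, fun N H hH hHN => ?_⟩
  simp only [phase_eq]
  obtain ⟨h1, h2⟩ := h N H hH hHN
  refine ⟨h1.trans ?_, h2.trans ?_⟩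
  · refine mul_le_mul_of_nonneg_right ?_ (Real.log_natCast_nonneg N)
    exact mul_le_mul_of_nonneg_right hle (Nat.cast_nonneg _)
  · refine mul_le_mul_of_nonneg_right ?_ (Nat.cast_nonneg N)
    exact mul_le_mul_of_nonneg_right hle (Nat.cast_nonneg _)

lemma la_main (k : ℕ) (f : C(UnitAddCircle, ℂ)) (c : ℂ) (κ : ℝ) (hf : MeanBound f c κ) (ε : ℝ) (hε : 0 < ε) :
    ∃ δ : ℝ, 0 < δ ∧ ∃ H₀ : ℕ, ∀ N H : ℕ, H₀ ≤ H → H ≤ N →
      ∑ n ∈ Icc 1 N, (1 / (n : ℝ)) * phaseSup k δ f liouville n H ≤ (κ + ε) * H * Real.log N ∧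
      ∑ n ∈ Icc 1 N, phaseSup k δ f liouville n H ≤ (κ + ε) * H * N := by
  have hκ := nonneg_of_mean hf
  obtain ⟨δ, hδ, H₀, h⟩ := Pool.Agent.Q259.LU.main k f c κ hκ hf
    (fun n => ((liouville n : ℤ) : ℝ)) SA_la 1 le_rfl (fun _ => 1) (fun n => by
      unfold liouville
      push_cast
      rw [abs_pow, abs_neg, abs_one, one_pow]) (fun _ => le_rfl) (fun _ => rfl) 1 (by simp) ε hε
  rw [one_mul] at h
  refine ⟨δ, hδ, H₀, fun N H hH hHN => ?_⟩
  simp only [phase_eq]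
  exact h N H hH hHN

lemma diff_poly (k : ℕ) : ∀ P : ℝ[X], P.natDegree ≤ k → ∀ m, diff (fun j => P.eval (j : ℝ)) (k + 1) m = 0 := by
  induction k with
  | zero =>
    intro P hP m
    rw [diff, diff, diff]
    have : ∀ x : ℝ, P.eval x = P.coeff 0 := by
      intro x
      conv_lhs => rw [eq_C_of_natDegree_le_zero hP]
      rw [eval_C]
    rw [this, this, sub_self]
  | succ k ih =>
    intro P hP m
    rw [diff_eq, ← Pool.Agent.Q259.LU.dd_comm, ← diff_eq]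
    have h1 : (fun m : ℕ => P.eval ((m + 1 : ℕ) : ℝ) - P.eval (m : ℝ)) =
        fun m : ℕ => (taylor 1 P - P).eval (m : ℝ) := by
      funext m
      rw [eval_sub, taylor_eval]
      push_cast
      rfl
    rw [h1]
    refine ih _ ?_ m
    rw [natDegree_le_iff_coeff_eq_zero]
    intro N hN
    rw [coeff_sub, Pool.Agent.Q259.LU.taylor_top P 1 N (by omega), sub_self]

lemma phase_bdd (k : ℕ) (δ : ℝ) (f : C(UnitAddCircle, ℂ)) (a : ℕ → ℤ) (ha : ∀ n, |((a n : ℤ) : ℝ)| ≤ 1) (n H : ℕ) :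
    BddAbove (Set.range fun φ : {φ : ℕ → ℝ // ∀ m, |diff φ (k + 1) m| ≤ δ} =>
      ‖∑ h ∈ Icc 1 H, f ((φ.1 h : ℝ) : UnitAddCircle) * ((a (n + h) : ℤ) : ℂ)‖) := by
  refine ⟨H * ‖f‖, ?_⟩
  rintro _ ⟨φ, rfl⟩
  refine (norm_sum_le _ _).trans ?_
  have : ∀ h ∈ Icc 1 H, ‖f ((φ.1 h : ℝ) : UnitAddCircle) * ((a (n + h) : ℤ) : ℂ)‖ ≤ ‖f‖ := by
    intro h _
    rw [norm_mul, Complex.norm_intCast]
    calc ‖f ((φ.1 h : ℝ) : UnitAddCircle)‖ * |((a (n + h) : ℤ) : ℝ)| ≤ ‖f‖ * 1 :=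
          mul_le_mul (f.norm_coe_le_norm _) (ha _) (abs_nonneg _) (norm_nonneg _)
      _ = ‖f‖ := mul_one _
  refine (sum_le_sum this).trans (le_of_eq ?_)
  rw [sum_const, Nat.card_Icc, nsmul_eq_mul, Nat.add_sub_cancel]

lemma diff_zero (k : ℕ) (m : ℕ) : diff (fun _ => (0 : ℝ)) k m = 0 := by
  rw [diff_eq, Pool.Agent.Q259.LU.dd_const_zero]

lemma phase_mono (k : ℕ) {δ δ' : ℝ} (hδ : 0 ≤ δ) (h : δ ≤ δ') (f : C(UnitAddCircle, ℂ)) (a : ℕ → ℤ)
    (ha : ∀ n, |((a n : ℤ) : ℝ)| ≤ 1) (n H : ℕ) : phaseSup k δ f a n H ≤ phaseSup k δ' f a n H := by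
  have : Nonempty {φ : ℕ → ℝ // ∀ m, |diff φ (k + 1) m| ≤ δ} :=
    ⟨⟨fun _ => 0, fun m => by rw [diff_zero]; simpa using hδ⟩⟩
  refine ciSup_le fun φ => ?_
  exact le_ciSup (phase_bdd k δ' f a ha n H) ⟨φ.1, fun m => (φ.2 m).trans h⟩

lemma mu_le (n : ℕ) : |((ArithmeticFunction.moebius n : ℤ) : ℝ)| ≤ 1 := by
  have := ArithmeticFunction.abs_moebius_le_one (n := n)
  exact_mod_cast this

lemma la_le (n : ℕ) : |((liouville n : ℤ) : ℝ)| ≤ 1 := by
  unfold liouville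
  push_cast
  rw [abs_pow, abs_neg, abs_one, one_pow]

lemma nil_le (f : C(UnitAddCircle, ℂ)) (δ : ℝ) (hδ : 0 ≤ δ) (G : Type) [Group G] (Γ : Subgroup G)
    (χ : G →* Multiplicative UnitAddCircle) (F : G ⧸ Γ → ℂ) (x₀ : G)
    (hF : ∀ g : G, F (QuotientGroup.mk g) = f (Multiplicative.toAdd (χ g))) (n H : ℕ) :
    (⨆ g : G, ‖∑ h ∈ Icc 1 H,
      F (QuotientGroup.mk (g ^ (h + n) * x₀)) * ((ArithmeticFunction.moebius (n + h) : ℤ) : ℂ)‖) ≤
      phaseSup 1 δ f ArithmeticFunction.moebius n H := by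
  have : Nonempty G := ⟨1⟩
  refine ciSup_le fun g => ?_
  obtain ⟨α, hα⟩ := QuotientAddGroup.mk_surjective (Multiplicative.toAdd (χ g))
  obtain ⟨β, hβ⟩ := QuotientAddGroup.mk_surjective (Multiplicative.toAdd (χ x₀))
  have hd : ∀ m, |diff (fun h : ℕ => ((h + n : ℕ) : ℝ) * α + β) (1 + 1) m| ≤ δ := by
    intro m
    have : diff (fun h : ℕ => ((h + n : ℕ) : ℝ) * α + β) (1 + 1) m = 0 := by
      simp only [diff]
      push_cast
      ring
    rw [this, abs_zero]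
    exact hδ
  have h1 := le_ciSup (phase_bdd 1 δ f ArithmeticFunction.moebius mu_le n H)
    ⟨fun h : ℕ => ((h + n : ℕ) : ℝ) * α + β, hd⟩
  refine le_trans (le_of_eq ?_) h1
  congr 1
  refine sum_congr rfl fun h _ => ?_
  congr 1
  rw [hF, map_mul, map_pow, toAdd_mul, toAdd_pow, ← hα, ← hβ]
  congr 1
  show _ = ((((h + n : ℕ) : ℝ) * α + β : ℝ) : UnitAddCircle)
  rw [AddCircle.coe_add, ← nsmul_eq_mul, AddCircle.coe_nsmul]

/-- **Local correlations of the Moebius function with phases of every degree.** Let `f` be continuous on the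
circle and let `κ` bound the mean of `|Re (ω (f - c))|` over the circle, for some constant `c` and all unit complex
numbers `ω`; for `f = e` one may take `κ = 2/π` and `c = 0`. Then, uniformly over `N ≥ H ≥ H₀`, the average over
`n ≤ N` of the supremum of `|∑_{h ≤ H} f(φ(h)) μ(n + h)|` over all real sequences `φ` with differences of order
`k + 1` at most `δ` (in particular over all real polynomials of degree at most `k`) is at most
`((6/π²) κ + ε) H`, with logarithmic weights and without; for the Liouville function `(κ + ε) H`. Consequences: the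
same bound for all nilrotations and all functions on `G/Γ` which factor through a character, and for the sums of
`f(φ(n)) μ(n)` for one sequence `φ` whose differences of order `k + 1` tend to `0`. -/
theorem result :
    MeanBound (fourier 1) 0 (2 / Real.pi) ∧
    ∀ (k : ℕ) (f : C(UnitAddCircle, ℂ)) (c : ℂ) (κ : ℝ), MeanBound f c κ → ∀ ε : ℝ, 0 < ε →
      (∃ δ : ℝ, 0 < δ ∧ ∃ H₀ : ℕ, ∀ N H : ℕ, H₀ ≤ H → H ≤ N →
        ∑ n ∈ Icc 1 N, (1 / (n : ℝ)) * phaseSup k δ f ArithmeticFunction.moebius n H ≤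
          (6 / Real.pi ^ 2 * κ + ε) * H * Real.log N ∧
        ∑ n ∈ Icc 1 N, phaseSup k δ f ArithmeticFunction.moebius n H ≤ (6 / Real.pi ^ 2 * κ + ε) * H * N ∧
        ∑ n ∈ Icc 1 N, (1 / (n : ℝ)) * phaseSup k δ f liouville n H ≤ (κ + ε) * H * Real.log N ∧
        ∑ n ∈ Icc 1 N, phaseSup k δ f liouville n H ≤ (κ + ε) * H * N) ∧
      (∀ P : ℝ[X], P.natDegree ≤ k → ∀ m, diff (fun j => P.eval (j : ℝ)) (k + 1) m = 0) ∧
      (∃ H₀ : ℕ, ∀ N H : ℕ, H₀ ≤ H → H ≤ N → ∀ (G : Type) [Group G] (Γ : Subgroup G)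
        (χ : G →* Multiplicative UnitAddCircle) (F : G ⧸ Γ → ℂ) (x₀ : G),
        (∀ g : G, F (QuotientGroup.mk g) = f (Multiplicative.toAdd (χ g))) →
        ∑ n ∈ Icc 1 N, (1 / (n : ℝ)) * ⨆ g : G, ‖∑ h ∈ Icc 1 H,
          F (QuotientGroup.mk (g ^ (h + n) * x₀)) * ((ArithmeticFunction.moebius (n + h) : ℤ) : ℂ)‖ ≤
          (6 / Real.pi ^ 2 * κ + ε) * H * Real.log N) ∧
      (∀ φ : ℕ → ℝ, Tendsto (diff φ (k + 1)) atTop (𝓝 0) → ∃ N₀ : ℕ, ∀ N, N₀ ≤ N →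
        ‖∑ n ∈ Icc 1 N, f ((φ n : ℝ) : UnitAddCircle) * ((ArithmeticFunction.moebius n : ℤ) : ℂ)‖ ≤
          (6 / Real.pi ^ 2 * κ + ε) * N ∧
        ‖∑ n ∈ Icc 1 N, f ((φ n : ℝ) : UnitAddCircle) * ((liouville n : ℤ) : ℂ)‖ ≤ (κ + ε) * N) := by
  refine ⟨fun ω hω => (Pool.Agent.Q259.LU.int_char ω hω).le, fun k f c κ hf ε hε => ⟨?_, diff_poly k, ?_, ?_⟩⟩
  · obtain ⟨δ₁, hδ₁, H₁, h1⟩ := mu_main k f c κ hf ε hε
    obtain ⟨δ₂, hδ₂, H₂, h2⟩ := la_main k f c κ hf ε hε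
    refine ⟨min δ₁ δ₂, lt_min hδ₁ hδ₂, H₁ + H₂, fun N H hH hHN => ?_⟩
    have hm : 0 ≤ min δ₁ δ₂ := (lt_min hδ₁ hδ₂).le
    obtain ⟨a1, a2⟩ := h1 N H (by omega) hHN
    obtain ⟨b1, b2⟩ := h2 N H (by omega) hHN
    refine ⟨le_trans (sum_le_sum fun n _ => ?_) a1, le_trans (sum_le_sum fun n _ => ?_) a2,
      le_trans (sum_le_sum fun n _ => ?_) b1, le_trans (sum_le_sum fun n _ => ?_) b2⟩
    · exact mul_le_mul_of_nonneg_left (phase_mono k hm (min_le_left _ _) f _ mu_le n H) (by positivity)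
    · exact phase_mono k hm (min_le_left _ _) f _ mu_le n H
    · exact mul_le_mul_of_nonneg_left (phase_mono k hm (min_le_right _ _) f _ la_le n H) (by positivity)
    · exact phase_mono k hm (min_le_right _ _) f _ la_le n H
  · obtain ⟨δ, hδ, H₁, h1⟩ := mu_main 1 f c κ hf ε hε
    refine ⟨H₁, fun N H hH hHN G _ Γ χ F x₀ hF => ?_⟩
    refine le_trans (sum_le_sum fun n _ => ?_) (h1 N H hH hHN).1
    exact mul_le_mul_of_nonneg_left (nil_le f δ hδ.le G Γ χ F x₀ hF n H) (by positivity)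
  · intro φ hφ
    have hd : Pool.Agent.Q259.LU.dd φ (k + 1) = diff φ (k + 1) := by
      funext m
      exact (diff_eq φ (k + 1) m).symm
    have hκ := nonneg_of_mean hf
    obtain ⟨N₁, h1⟩ := Pool.Agent.Q259.LU.seq_bound k f (fun n => ((ArithmeticFunction.moebius n : ℤ) : ℝ)) mu_le
      (6 / Real.pi ^ 2 * κ) (by positivity) (fun ε' hε' => by
        obtain ⟨δ, hδ, H₀, h⟩ := mu_main k f c κ hf ε' hε'
        refine ⟨δ, hδ, H₀, fun N H hH hHN => ?_⟩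
        have := (h N H hH hHN).2
        simp only [phase_eq] at this
        exact this) φ (by rw [hd]; exact hφ) ε hε
    obtain ⟨N₂, h2⟩ := Pool.Agent.Q259.LU.seq_bound k f (fun n => ((liouville n : ℤ) : ℝ)) la_le
      κ hκ (fun ε' hε' => by
        obtain ⟨δ, hδ, H₀, h⟩ := la_main k f c κ hf ε' hε'
        refine ⟨δ, hδ, H₀, fun N H hH hHN => ?_⟩
        have := (h N H hH hHN).2
        simp only [phase_eq] at this
        exact this) φ (by rw [hd]; exact hφ) ε hε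
    refine ⟨N₁ + N₂, fun N hN => ⟨?_, ?_⟩⟩
    · have := h1 N (by omega)
      simpa only [Complex.ofReal_intCast] using this
    · have := h2 N (by omega)
      simpa only [Complex.ofReal_intCast] using this

end Pool.Agent.Results.MP_663568_nt.PolynomialPhases
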