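import Pool.Agent.Q197.PS.SU

/-! # Short-interval Moebius disjointness for nilrotations along random unions of residue classes

The sums of the problem are restricted to the `m = n + h` with residue modulo `P` in a set `A`. -/

set_option autoImplicit false

open Finset Filter Topology
open scoped Manifold

namespace Pool.Agent.Results.MP_663568_nt.UnionsOfClasses

open Q197.PS

section

variable {G : Type} [Group G]

/-- The sum of the problem, restricted to the `h` with `(n + h) mod P` in `A`. -/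
noncomputable def S {Γ : Subgroup G} (f : G ⧸ Γ → ℂ) (x₀ : G) (P : ℕ) (A : Finset ℕ) (N H : ℕ) : ℝ :=
  ∑ n ∈ Icc 1 N, (1 / (n : ℝ)) *
    ⨆ g : G, ‖∑ h ∈ (Icc 1 H).filter (fun h => (n + h) % P ∈ A),
      f (QuotientGroup.mk (g ^ (h + n) * x₀) : G ⧸ Γ) * ((ArithmeticFunction.moebius (n + h) : ℤ) : ℂ)‖

/-- `S(N,H) = o(H log N)` as `H` tends to infinity, uniformly in `N ≥ H`. -/
def Good {Γ : Subgroup G} (f : G ⧸ Γ → ℂ) (x₀ : G) (P : ℕ) (A : Finset ℕ) : Prop :=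
  ∀ ε : ℝ, 0 < ε → ∃ H₀ : ℕ, ∀ N H : ℕ, H₀ ≤ H → H ≤ N → S f x₀ P A N H ≤ ε * (H : ℝ) * Real.log (N : ℝ)

open Classical in
/-- The number of the sets `A` of residues modulo `P` for which the `o`-bound holds. -/
noncomputable def count {Γ : Subgroup G} (f : G ⧸ Γ → ℂ) (x₀ : G) (P : ℕ) : ℕ :=
  ((range P).powerset.filter (fun A => Good f x₀ P A)).card

/-- the weight of the general machine -/
noncomputable def ww {Γ : Subgroup G} (f : G ⧸ Γ → ℂ) (x₀ : G) (K : ℝ) (g : G) (m : ℕ) : ℂ :=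
  (1 / (K : ℂ)) * (f (QuotientGroup.mk (g ^ m * x₀) : G ⧸ Γ) * ((ArithmeticFunction.moebius m : ℤ) : ℂ))

lemma ww_le {Γ : Subgroup G} {f : G ⧸ Γ → ℂ} (x₀ : G) {K : ℝ} (hK : 0 < K) (hf : ∀ y, ‖f y‖ ≤ K) (g : G) (m : ℕ) :
    ‖ww f x₀ K g m‖ ≤ 1 := by
  unfold ww
  rw [norm_mul, norm_mul, norm_div, norm_one, Complex.norm_real, Real.norm_of_nonneg hK.le]
  have h1 : ‖((ArithmeticFunction.moebius m : ℤ) : ℂ)‖ ≤ 1 := by
    rw [Complex.norm_intCast]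
    have := ArithmeticFunction.abs_moebius_le_one (n := m)
    exact_mod_cast this
  have h2 := hf (QuotientGroup.mk (g ^ m * x₀))
  calc 1 / K * (‖f (QuotientGroup.mk (g ^ m * x₀))‖ * ‖((ArithmeticFunction.moebius m : ℤ) : ℂ)‖)
      ≤ 1 / K * (K * 1) := by gcongr
    _ = 1 := by field_simp

lemma tot_eq {Γ : Subgroup G} (f : G ⧸ Γ → ℂ) (x₀ : G) {K : ℝ} (hK : 0 < K) (P : ℕ) (A : Finset ℕ) (N H : ℕ) :
    tot (ww f x₀ K) P A N H = (1 / K) * S f x₀ P A N H := by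
  unfold tot S
  rw [mul_sum]
  refine sum_congr rfl fun n _ => ?_
  have h1 : ∀ g : G, ‖inn (ww f x₀ K) P A n H g‖ = (1 / K) * ‖∑ h ∈ (Icc 1 H).filter (fun h => (n + h) % P ∈ A),
      f (QuotientGroup.mk (g ^ (h + n) * x₀) : G ⧸ Γ) * ((ArithmeticFunction.moebius (n + h) : ℤ) : ℂ)‖ := by
    intro g
    unfold inn ww
    rw [← mul_sum, norm_mul, norm_div, norm_one, Complex.norm_real, Real.norm_of_nonneg hK.le]
    simp only [add_comm n]
  simp only [h1]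
  rw [← Real.mul_iSup_of_nonneg (by positivity)]
  ring

lemma good_iff {Γ : Subgroup G} (f : G ⧸ Γ → ℂ) (x₀ : G) {K : ℝ} (hK : 0 < K) (P : ℕ) (A : Finset ℕ) :
    Good f x₀ P A ↔ GoodS (ww f x₀ K) P A := by
  unfold Good GoodS
  simp only [tot_eq f x₀ hK]
  constructor
  · intro h ε hε
    obtain ⟨H₀, h1⟩ := h (ε * K) (by positivity)
    refine ⟨H₀, fun N H a b => ?_⟩
    have h2 := h1 N H a b
    rw [one_div, inv_mul_le_iff₀ hK]
    linarith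
  · intro h ε hε
    obtain ⟨H₀, h1⟩ := h (ε / K) (by positivity)
    refine ⟨H₀, fun N H a b => ?_⟩
    have h2 := h1 N H a b
    rw [one_div, inv_mul_le_iff₀ hK] at h2
    calc S f x₀ P A N H ≤ K * (ε / K * H * Real.log N) := h2
      _ = ε * H * Real.log N := by field_simp

lemma count_eq {Γ : Subgroup G} (f : G ⧸ Γ → ℂ) (x₀ : G) {K : ℝ} (hK : 0 < K) (P : ℕ) :
    count f x₀ P = nSup (ww f x₀ K) P := by
  classical
  unfold count nSup
  simp only [good_iff f x₀ hK]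

theorem few {Γ : Subgroup G} {f : G ⧸ Γ → ℂ} (x₀ : G) {K : ℝ} (hK : 0 < K) (hf : ∀ y, ‖f y‖ ≤ K)
    {c : ℝ} (hc : 0 < c) (q : ℕ) (B : Finset ℕ)
    (hfr : ∀ H₀ : ℕ, ∃ N H : ℕ, H₀ ≤ H ∧ H ≤ N ∧ c * (H : ℝ) * Real.log (N : ℝ) ≤ S f x₀ q B N H)
    {P : ℕ} (hP : 0 < P) (hd : q ∣ P) : (count f x₀ P : ℝ) ≤ 432 * (1 + K / c) * 2 ^ P / √P := by
  have h1 := few_sup (w := ww f x₀ K) (ww_le x₀ hK hf) (c := c / K) (by positivity) q B ?_ hP hd
  · rw [count_eq f x₀ hK]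
    rwa [one_div_div] at h1
  · intro H₀
    obtain ⟨N, H, a, b, h⟩ := hfr H₀
    refine ⟨N, H, a, b, ?_⟩
    rw [tot_eq f x₀ hK]
    calc c / K * H * Real.log N = 1 / K * (c * H * Real.log N) := by ring
      _ ≤ 1 / K * S f x₀ q B N H := by gcongr

/-- **Share criterion for one class union** -/
theorem good_of_share {Γ : Subgroup G} {f : G ⧸ Γ → ℂ} (x₀ : G) {K : ℝ} (hK : 0 < K) (hf : ∀ y, ‖f y‖ ≤ K)
    (q : ℕ) (B : Finset ℕ)
    (h : ∀ M : ℝ, ∃ P : ℕ, 0 < P ∧ q ∣ P ∧ M * 2 ^ P / √P ≤ count f x₀ P) : Good f x₀ q B := by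
  by_contra hcon
  unfold Good at hcon
  push Not at hcon
  obtain ⟨ε, hε, hN⟩ := hcon
  obtain ⟨P, hP, hd, h1⟩ := h (432 * (1 + K / ε) + 1)
  have h2 := few x₀ hK hf hε q B (fun H₀ => by
    obtain ⟨N, H, a, b, h⟩ := hN H₀
    exact ⟨N, H, a, b, h.le⟩) hP hd
  have h3 : (0 : ℝ) < 2 ^ P / √P := by
    have : (0 : ℝ) < P := by exact_mod_cast hP
    positivity
  have h4 : (432 * (1 + K / ε) + 1) * (2 ^ P / √P) ≤ 432 * (1 + K / ε) * (2 ^ P / √P) := by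
    calc (432 * (1 + K / ε) + 1) * (2 ^ P / √P) = (432 * (1 + K / ε) + 1) * 2 ^ P / √P := by ring
      _ ≤ count f x₀ P := h1
      _ ≤ 432 * (1 + K / ε) * 2 ^ P / √P := h2
      _ = 432 * (1 + K / ε) * (2 ^ P / √P) := by ring
  linarith

lemma share_of_all {Γ : Subgroup G} {f : G ⧸ Γ → ℂ} (x₀ : G) (h : ∀ P : ℕ, 0 < P → ∀ B : Finset ℕ, Good f x₀ P B)
    {q : ℕ} (hq : 0 < q) (M : ℝ) : ∃ P : ℕ, 0 < P ∧ q ∣ P ∧ M * 2 ^ P / √P ≤ count f x₀ P := by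
  classical
  obtain ⟨k, hk⟩ := exists_nat_ge (M ^ 2)
  have hP : 0 < q * (k + 1) := by positivity
  refine ⟨q * (k + 1), hP, dvd_mul_right _ _, ?_⟩
  have h1 : count f x₀ (q * (k + 1)) = 2 ^ (q * (k + 1)) := by
    unfold count
    rw [filter_true_of_mem (fun A _ => h _ hP A), card_powerset, card_range]
  rw [h1]
  push_cast
  have hPr : (0 : ℝ) < (q : ℝ) * (k + 1) := by exact_mod_cast hP
  rw [div_le_iff₀ (Real.sqrt_pos.2 hPr), mul_comm]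
  apply mul_le_mul_of_nonneg_left _ (by positivity)
  apply Real.le_sqrt_of_sq_le
  have hq1 : (1 : ℝ) ≤ q := by exact_mod_cast hq
  nlinarith

lemma S_one {Γ : Subgroup G} (f : G ⧸ Γ → ℂ) (x₀ : G) (N H : ℕ) : S f x₀ 1 {0} N H =
    ∑ n ∈ Icc 1 N, (1 / (n : ℝ)) * ⨆ g : G, ‖∑ h ∈ Icc 1 H,
      f (QuotientGroup.mk (g ^ (h + n) * x₀) : G ⧸ Γ) * ((ArithmeticFunction.moebius (n + h) : ℤ) : ℂ)‖ := by
  have h1 : ∀ n : ℕ, (Icc 1 H).filter (fun h => (n + h) % 1 ∈ ({0} : Finset ℕ)) = Icc 1 H := fun n =>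
    filter_true_of_mem (fun h _ => by rw [Nat.mod_one]; exact mem_singleton_self 0)
  unfold S
  simp only [h1]

end

section

variable {E : Type} [NormedAddCommGroup E] [NormedSpace ℝ E] {G : Type} [Group G] [TopologicalSpace G]
  [ChartedSpace E G]

/-- `f` is Lipschitz on `G/Γ`: near each point, in the charts of `G`. -/
def Lip (E : Type) [NormedAddCommGroup E] [NormedSpace ℝ E] {G : Type} [Group G] [TopologicalSpace G]
    [ChartedSpace E G] {Γ : Subgroup G} (f : G ⧸ Γ → ℂ) : Prop :=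
  ∀ y : G, ∃ K : NNReal, ∃ U ∈ nhds (extChartAt 𝓘(ℝ, E) y y),
    LipschitzOnWith K (fun v : E => f (QuotientGroup.mk ((extChartAt 𝓘(ℝ, E) y).symm v) : G ⧸ Γ)) U

lemma lip_bdd [IsTopologicalGroup G] {Γ : Subgroup G} [CompactSpace (G ⧸ Γ)] {f : G ⧸ Γ → ℂ} (hf : Lip E f) :
    ∃ K : ℝ, 0 < K ∧ ∀ y, ‖f y‖ ≤ K := by
  have h1 : Continuous (fun z : G => f (QuotientGroup.mk z : G ⧸ Γ)) := by
    rw [continuous_iff_continuousAt]
    intro y
    obtain ⟨K, U, hU, hL⟩ := hf y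
    have h2 : ContinuousAt (fun v : E => f (QuotientGroup.mk ((extChartAt 𝓘(ℝ, E) y).symm v) : G ⧸ Γ))
        (extChartAt 𝓘(ℝ, E) y y) := hL.continuousOn.continuousAt hU
    have h3 : ContinuousAt (extChartAt 𝓘(ℝ, E) y) y := continuousAt_extChartAt y
    have h4 := ContinuousAt.comp (f := extChartAt 𝓘(ℝ, E) y) h2 h3
    refine h4.congr ?_
    filter_upwards [extChartAt_source_mem_nhds (I := 𝓘(ℝ, E)) y] with z hz
    simp only [Function.comp_apply]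
    rw [(extChartAt 𝓘(ℝ, E) y).left_inv hz]
  have h2 : Continuous f := by
    rw [(QuotientGroup.isQuotientMap_mk (N := Γ)).continuous_iff]
    exact h1
  have h3 : IsCompact (Set.range f) := isCompact_range h2
  obtain ⟨K, hK⟩ := h3.isBounded.exists_norm_le
  refine ⟨max K 1, by positivity, fun y => (hK _ ⟨y, rfl⟩).trans (le_max_left _ _)⟩

end

/-- The question: logarithmic short-interval Moebius disjointness for all nilrotations (frozen statement `S17251`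
with the same data). -/
def Question : Prop :=
  ∀ (E : Type) [NormedAddCommGroup E] [NormedSpace ℝ E] [FiniteDimensional ℝ E]
    (G : Type) [Group G] [TopologicalSpace G] [ChartedSpace E G]
    [LieGroup 𝓘(ℝ, E) ((⊤ : ℕ∞) : WithTop ℕ∞) G] [SimplyConnectedSpace G] [Group.IsNilpotent G]
    (Γ : Subgroup G) [DiscreteTopology Γ] [CompactSpace (G ⧸ Γ)] (f : G ⧸ Γ → ℂ) (x₀ : G),
    Lip E f → ∀ ε : ℝ, 0 < ε → ∃ H₀ : ℕ, ∀ N H : ℕ, H₀ ≤ H → H ≤ N →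
      (∑ n ∈ Icc 1 N, (1 / (n : ℝ)) * ⨆ g : G, ‖∑ h ∈ Icc 1 H,
        f (QuotientGroup.mk (g ^ (h + n) * x₀) : G ⧸ Γ) * ((ArithmeticFunction.moebius (n + h) : ℤ) : ℂ)‖)
      ≤ ε * (H : ℝ) * Real.log (N : ℝ)

theorem result :
    -- a failure leaves few good unions
    (∀ (G : Type) [Group G] (Γ : Subgroup G) (f : G ⧸ Γ → ℂ) (x₀ : G) (K c : ℝ), 0 < K → (∀ y, ‖f y‖ ≤ K) → 0 < c →
      ∀ (q : ℕ) (B : Finset ℕ),
        (∀ H₀ : ℕ, ∃ N H : ℕ, H₀ ≤ H ∧ H ≤ N ∧ c * (H : ℝ) * Real.log (N : ℝ) ≤ S f x₀ q B N H) →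
        ∀ P : ℕ, 0 < P → q ∣ P → (count f x₀ P : ℝ) ≤ 432 * (1 + K / c) * 2 ^ P / √P) ∧
    -- all residue classes
    (∀ (G : Type) [Group G] (Γ : Subgroup G) (f : G ⧸ Γ → ℂ) (x₀ : G) (K : ℝ), 0 < K → (∀ y, ‖f y‖ ≤ K) →
      ((∀ q : ℕ, 0 < q → ∀ B : Finset ℕ, Good f x₀ q B) ↔
        ∀ q : ℕ, 0 < q → ∀ M : ℝ, ∃ P : ℕ, 0 < P ∧ q ∣ P ∧ M * 2 ^ P / √P ≤ count f x₀ P)) ∧
    -- the question
    ((∀ (E : Type) [NormedAddCommGroup E] [NormedSpace ℝ E] [FiniteDimensional ℝ E]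
      (G : Type) [Group G] [TopologicalSpace G] [ChartedSpace E G]
      [LieGroup 𝓘(ℝ, E) ((⊤ : ℕ∞) : WithTop ℕ∞) G] [SimplyConnectedSpace G] [Group.IsNilpotent G]
      (Γ : Subgroup G) [DiscreteTopology Γ] [CompactSpace (G ⧸ Γ)] (f : G ⧸ Γ → ℂ) (x₀ : G),
      Lip E f → ∀ M : ℝ, ∃ P : ℕ, 0 < P ∧ M * 2 ^ P / √P ≤ count f x₀ P) → Question) := by
  refine ⟨?_, ?_, ?_⟩
  · intro G _ Γ f x₀ K c hK hf hc q B hfr P hP hd
    exact few x₀ hK hf hc q B hfr hP hd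
  · intro G _ Γ f x₀ K hK hf
    constructor
    · intro h q hq M
      exact share_of_all x₀ h hq M
    · intro h q hq B
      exact good_of_share x₀ hK hf q B (h q hq)
  · intro h E _ _ _ G _ _ _ _ _ _ Γ _ _ f x₀ hL ε hε
    have : IsTopologicalGroup G := topologicalGroup_of_lieGroup 𝓘(ℝ, E) ((⊤ : ℕ∞) : WithTop ℕ∞)
    obtain ⟨K, hK, hf⟩ := lip_bdd hL
    have h1 := good_of_share x₀ hK hf 1 {0} (fun M => by
      obtain ⟨P, hP, h2⟩ := h E G Γ f x₀ hL M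
      exact ⟨P, hP, one_dvd _, h2⟩) ε hε
    obtain ⟨H₀, h2⟩ := h1
    refine ⟨H₀, fun N H a b => ?_⟩
    rw [← S_one]
    exact h2 N H a b

end Pool.Agent.Results.MP_663568_nt.UnionsOfClasses
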